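import Pool.Agent.Y463.BS.Last

/-!
# Jones polynomials of bounded span: knots and links with a bounded number of twist regions

Diagrams (starting library): `Pool.Agent.H891R2.Jones.Diagram` (`Diagram`: oriented diagrams, planar or
not; `Diagram.IsClosed`; `fPoly`: the normalised Kauffman bracket, that is, the Jones polynomial as a
Laurent polynomial in `A = T 1`, `t = A⁻⁴`), `Pool.Agent.H891R2.MT.Defs` (`UDiagram`: unoriented
diagrams; `Orients D U`: `D` is `U` with directions), `Pool.Agent.H891R2.SI.Defs` (`Sites k`: a diagram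
`O`, planar or not, with `k` open boxes, the sites; `O.Connected`: it is connected, each site being one
piece; `O.crossings`: the crossings outside the sites; `O.fill w`, `w ∈ ℤ^k`: the site `e` is filled with
two strands twisted around each other, a row of `|w e|` crossings of the kind given by the sign of
`w e`), `Pool.Agent.H832R3.TW.FSpanLE s D`: `D.fPoly` is supported in an interval of length `4 s`, that
is, the Jones polynomial has span at most `s`; `Pool.Agent.H891R2.ZO.IsPow u`: `u = ± A ^ n`.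

New (`Pool.Agent.Y463.BS`): `Strand D p q`: the marked points `p`, `q` are joined by an arc or by the
under- or over-strand of a crossing; `IsKnot D`: `D` is closed and has one component.

For knots the unit is determined, because `f = D.fPoly` satisfies `f(1) = 1` and `f'(1) = 0`
(`knot_moments`, for all diagrams of knots, planar or not).
-/

set_option autoImplicit false

namespace Pool.Agent.Results.MP_833722_gt.BoundedTwistNumber

open Pool.Agent.H891R2.Jones Pool.Agent.H891R2.MT Pool.Agent.H891R2.SI LaurentPolynomial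
open Pool.Agent.H891R2.ZO (IsPow)
open Pool.Agent.H832R3.TW (FSpanLE)
open Pool.Agent.Y463.BS (IsKnot)

/-- There are only finitely many Jones polynomials of span at most `s` of knots which have a connected
diagram with `k` twist regions (rows of crossings of arbitrary lengths) and `c` other crossings, at most
`(c + k + 1) ^ (2 ^ (k + c)) * (3 ^ k * (3 c + 6 k + 2 s + 1) + 1) ^ k`, and there are only so many Jones
polynomials of span at most `s` of links with such diagrams up to units `± A ^ n`. Hence there are only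
finitely many for all `k, c ≤ N` together. -/
theorem result :
    (∀ k c s : ℕ, 0 < k → 
      (∃ F : Finset ℤ[T;T⁻¹],
        F.card ≤ (c + k + 1) ^ (2 ^ (k + c)) * (3 ^ k * (3 * c + 6 * k + 2 * s + 1) + 1) ^ k ∧
        ∀ O : Sites k, O.Connected → O.crossings.length = c →
          ∀ (w : Fin k → ℤ) (D : Diagram (O.P ⊕ Ribbon.Pt w)), Orients D (O.fill w) → IsKnot D → 
            FSpanLE s D → D.fPoly ∈ F) ∧ 
      ∃ F : Finset ℤ[T;T⁻¹],
        F.card ≤ (c + k + 1) ^ (2 ^ (k + c)) * (3 ^ k * (3 * c + 6 * k + 2 * s + 1) + 1) ^ k ∧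
        ∀ O : Sites k, O.Connected → O.crossings.length = c →
          ∀ (w : Fin k → ℤ) (D : Diagram (O.P ⊕ Ribbon.Pt w)), Orients D (O.fill w) → FSpanLE s D →
            ∃ g ∈ F, ∃ u, IsPow u ∧ D.fPoly = u * g) ∧
    ∀ N s : ℕ, ∃ F F' : Finset ℤ[T;T⁻¹], ∀ k : ℕ, 0 < k → k ≤ N →
      ∀ O : Sites k, O.Connected → O.crossings.length ≤ N →
        ∀ (w : Fin k → ℤ) (D : Diagram (O.P ⊕ Ribbon.Pt w)), Orients D (O.fill w) → FSpanLE s D →
          (IsKnot D → D.fPoly ∈ F) ∧ ∃ g ∈ F', ∃ u, IsPow u ∧ D.fPoly = u * g := by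
  classical
  refine ⟨fun k c s hk => ⟨Pool.Agent.Y463.BS.main_knot k c s hk, Pool.Agent.Y463.BS.main k c s hk⟩,
    fun N s => ?_⟩
  have h : ∀ x : ℕ × ℕ, ∃ F F' : Finset ℤ[T;T⁻¹], 0 < x.1 →
      ∀ O : Sites x.1, O.Connected → O.crossings.length = x.2 →
        ∀ (w : Fin x.1 → ℤ) (D : Diagram (O.P ⊕ Ribbon.Pt w)), Orients D (O.fill w) →
          FSpanLE s D → (IsKnot D → D.fPoly ∈ F) ∧ ∃ g ∈ F', ∃ u, IsPow u ∧ D.fPoly = u * g := by
    intro x
    by_cases hk : 0 < x.1
    · obtain ⟨F, -, hF⟩ := Pool.Agent.Y463.BS.main_knot x.1 x.2 s hk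
      obtain ⟨F', -, hF'⟩ := Pool.Agent.Y463.BS.main x.1 x.2 s hk
      exact ⟨F, F', fun _ O hO hc w D hD hs => 
        ⟨fun hK => hF O hO hc w D hD hK hs, hF' O hO hc w D hD hs⟩⟩
    · exact ⟨∅, ∅, fun h => absurd h hk⟩
  choose F F' hF using h
  refine ⟨(Finset.range (N + 1) ×ˢ Finset.range (N + 1)).biUnion F, 
    (Finset.range (N + 1) ×ˢ Finset.range (N + 1)).biUnion F', ?_⟩
  intro k hk hkN O hO hcN w D hD hs
  obtain ⟨h1, g, hg, h2⟩ := hF (k, O.crossings.length) hk O hO rfl w D hD hs
  have hm : (k, O.crossings.length) ∈ Finset.range (N + 1) ×ˢ Finset.range (N + 1) := by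
    rw [Finset.mem_product, Finset.mem_range, Finset.mem_range]
    exact ⟨by omega, by omega⟩
  exact ⟨fun hK => Finset.mem_biUnion.2 ⟨_, hm, h1 hK⟩, g, Finset.mem_biUnion.2 ⟨_, hm, hg⟩, h2⟩

end Pool.Agent.Results.MP_833722_gt.BoundedTwistNumber
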